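import Pool.Agent.MP_cce4c9_lc.H87.SpecR

/-!
Normalization of polynomials over a field.
-/

set_option autoImplicit false

open Polynomial

namespace Pool.Agent.MP_cce4c9_lc.H84

open H87

theorem last_filter (Q : ℕ → Bool) (n : ℕ) :
    (((List.range n).filter Q).reverse.headD 0 = 0 ∨
      (((List.range n).filter Q).reverse.headD 0 < n ∧
        Q (((List.range n).filter Q).reverse.headD 0) = true)) ∧
    ∀ i < n, Q i = true → i ≤ ((List.range n).filter Q).reverse.headD 0 := by
  induction n with
  | zero => simp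
  | succ n ih =>
    rw [List.range_succ, List.filter_append, List.reverse_append]
    by_cases h : Q n = true
    · simp only [List.filter_cons, h, if_true, List.filter_nil, List.reverse_cons,
        List.reverse_nil, List.nil_append, List.cons_append, List.headD_cons]
      exact ⟨Or.inr ⟨Nat.lt_succ_self n, trivial⟩, fun i hi _ => Nat.lt_succ_iff.1 hi⟩
    · simp only [List.filter_cons, h, List.filter_nil, List.reverse_nil, List.nil_append,
        Bool.false_eq_true, if_false]
      refine ⟨ih.1.imp_right fun k => ⟨k.1.trans (Nat.lt_succ_self n), k.2⟩, fun i hi hq => ?_⟩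
      rcases Nat.lt_succ_iff_lt_or_eq.1 hi with k | rfl
      · exact ih.2 i k hq
      · exact absurd hq h

theorem dgL_eq {R : Type} [CommRing R] {D : Ds} (π : Pres D R) (P : List El) :
    dgL D P = (toP π.val P).natDegree ∧ dgL D P ≤ P.length - 1 := by
  obtain ⟨h1, h2⟩ := last_filter (fun i => !isz D (P.getD i [])) P.length
  change dgL D P = 0 ∨ dgL D P < _ ∧ (!isz D (P.getD (dgL D P) [])) = true at h1
  change ∀ i < P.length, _ → i ≤ dgL D P at h2
  refine ⟨le_antisymm ?_ (natDegree_le_iff_coeff_eq_zero.2 fun N hN => ?_), ?_⟩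
  · rcases h1 with h | ⟨-, h⟩
    · omega
    · refine le_natDegree_of_ne_zero ?_
      rw [coeff_toP π.hm.nil, Ne, ← π.isz_iff]
      simpa using h
  · rw [coeff_toP π.hm.nil]
    by_cases k : N < P.length
    · rw [← π.isz_iff]
      by_contra h
      exact absurd (h2 N k (by simpa using h)) (not_le.2 hN)
    · rw [List.getD_eq_default _ _ (not_lt.1 k), π.hm.nil]
  · rcases h1 with h | ⟨h, -⟩ <;> omega

theorem mon_ : StmtMON := by
  intro F _ D π P
  obtain ⟨h1, h2⟩ := dgL_eq π P
  have hl : (mon D P).length = dgL D P := by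
    rw [mon, List.length_map, List.length_range]
    omega
  refine ⟨fun a ha => ?_, hl.trans h1, hl.trans_le h2, fun h0 => ?_⟩
  · obtain ⟨i, -, rfl⟩ := List.mem_map.1 ha
    exact length_mul _ _ _
  · have hc : (toP π.val P).leadingCoeff = π.val (P.getD (dgL D P) []) := by
      rw [leadingCoeff, ← h1, coeff_toP π.hm.nil]
    have hc0 : (toP π.val P).leadingCoeff ≠ 0 := leadingCoeff_ne_zero.2 h0
    ext i
    rw [toM, coeff_add, coeff_X_pow, coeff_toP π.hm.nil, coeff_C_mul, hl]
    rcases lt_trichotomy i (dgL D P) with k | k | k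
    · rw [if_neg k.ne, zero_add, mon, KTow.getD_range_map (by omega), π.hm.mul, coeff_toP π.hm.nil,
        hc, mul_comm]
      congr 1
      exact π.qinv (RingHom.id F) (hc ▸ hc0)
    · rw [if_pos k, List.getD_eq_default _ _ (by omega), π.hm.nil, add_zero, k, h1]
      exact (inv_mul_cancel₀ hc0).symm
    · rw [if_neg k.ne', List.getD_eq_default _ _ (by omega), π.hm.nil, add_zero,
        coeff_eq_zero_of_natDegree_lt (h1 ▸ k), mul_zero]

end Pool.Agent.MP_cce4c9_lc.H84
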