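import Pool.Agent.MP_cce4c9_lc.H84.Mon

/-!
The coordinates of isolated solutions are roots of the output of `solve`.
-/

set_option autoImplicit false

open Polynomial

namespace Pool.Agent.MP_cce4c9_lc.H84

open H87

theorem engP_map {R S : Type} [CommRing R] [CommRing S] (P : R →+* S) (v n i s : ℕ)
    (co : ℕ → ℕ → R) (y : ℕ → R) (γ γ' : ℕ) : P (engP v n i s co y γ γ') =
      engP v n i s (fun l J => P (co l J)) (fun j => P (y j)) γ γ' := by
  simp only [engP, apply_ite P, map_add, map_sub, map_mul, map_sum, map_pow, map_one, map_zero]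

theorem engA_val {S : Type} [CommRing S] {E : Ds} {φ : El → S} (h : Hm E φ) (ys : List El)
    (v n i : ℕ) (hi : i ≤ v) (eqs : List (List El)) (γ γ' : ℕ) :
    φ (engA E ys v n i eqs γ γ') =
      engP v n i eqs.length (fun l J => φ (ent eqs l J)) (fun j => φ (ys.getD j [])) γ γ' := by
  simp only [engA, engP, apply_ite φ, h.add, h.sub, h.mul, h.sumL_range, h.pw, h.cst,
    Nat.cast_one, Nat.cast_zero, min_eq_left hi]

theorem engDet_map {R S : Type} [CommRing R] [CommRing S] (P : R →+* S) (v n i s : ℕ)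
    (co : ℕ → ℕ → R) : MvPolynomial.map P (engDet v n i s co) =
      engDet v n i s fun l J => P (co l J) := by
  rw [engDet, engDet, RingHom.map_det]
  congr 1
  ext1 γ γ'
  rw [RingHom.mapMatrix_apply, Matrix.map_apply, Matrix.of_apply, Matrix.of_apply, engP_map]
  congr 1
  · funext l J
    exact MvPolynomial.map_C _ _
  · funext j
    unfold ex
    split_ifs
    · exact MvPolynomial.map_X _ _
    · exact map_zero _

theorem ent_tk (D : Ds) (eqs : List (List El)) (l J : ℕ) :
    ent (eqs.map (List.map (tk D))) l J = tk D (ent eqs l J) := by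
  simp only [ent, List.getD_eq_getElem?_getD, List.getElem?_map]
  cases eqs[l]? with
  | none => simp [tk]
  | some g =>
    simp only [Option.map_some, Option.getD_some, List.getElem?_map]
    cases g[J]? <;> simp [tk]

theorem chunk_engD {R : Type} [CommRing R] {D : Ds} (π : Pres D R) (v n i : ℕ) (hi : i ≤ v)
    (eqs : List (List El)) {J : ℕ} (hJ : J < dlE v n eqs.length ^ (v + 2)) :
    π.val (chunk D (engD D v n eqs i) J) =
      (engDet v n i eqs.length fun l J => π.val (ent eqs l J)).coeff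
        (exps (dlE v n eqs.length) (v + 2) J) := by
  obtain ⟨R', _, ⟨T⟩⟩ := exists_tow π (h := List.replicate (dlE v n eqs.length) [])
    (by simp [dlE]) (v + 2)
  refine T.trunc _ ?_ hJ
  rw [engD, T.π'.hm.det_mat, engDet, ← MvPolynomial.coe_eval₂Hom, RingHom.map_det]
  congr 1
  ext1 γ γ'
  rw [RingHom.mapMatrix_apply, Matrix.map_apply, Matrix.of_apply, Matrix.of_apply, engP_map,
    engA_val T.π'.hm _ _ _ _ hi, List.length_map]
  congr 1
  · funext l J
    rw [ent_tk, T.val_inc (tk D _) (List.length_take_le _ _), MvPolynomial.eval₂Hom_C]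
    exact congrArg T.inc (π.val_take _)
  · funext j
    unfold ex
    split_ifs with k
    · rw [MvPolynomial.eval₂Hom_X']
    · rw [List.getD_eq_default _ _ (by rw [T.len]; omega), T.π'.hm.nil, map_zero]

theorem exps_cons {N V e J : ℕ} (he : e < N) :
    exps N (V + 1) (e + N * J) = Finsupp.cons e (exps N V J) := by
  ext j
  rw [KitPt.exps_apply]
  refine Fin.cases ?_ (fun j => ?_) j
  · simp [dig, Nat.mod_eq_of_lt he]
  · rw [Finsupp.cons_succ, KitPt.exps_apply, Fin.val_succ, dig, dig, pow_succ',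
      ← Nat.div_div_eq_div_mul, Nat.add_mul_div_left _ _ (by omega), Nat.div_eq_of_lt he, zero_add]

theorem fold_conv {S : Type} [CommRing S] [IsDomain S] {D : Ds} {φ : El → S} (h : Hm D φ)
    (gs : List (List El)) (hg : ∀ g ∈ gs, toP φ g ≠ 0) : ∀ r : List El, toP φ r ≠ 0 →
    toP φ (gs.foldl (conv D) r) = toP φ r * (gs.map (toP φ)).prod := by
  have ne : ∀ r : List El, toP φ r ≠ 0 → r ≠ [] := by
    rintro _ hr rfl
    exact hr (toP_nil φ)
  induction gs with
  | nil => simp
  | cons g gs ih =>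
    intro r hr
    have h1 := hg g List.mem_cons_self
    have h2 := h.conv (ne r hr) (ne g h1)
    rw [List.foldl_cons, ih (fun x hx => hg x (List.mem_cons_of_mem _ hx)) _
      (h2 ▸ mul_ne_zero hr h1), h2, List.map_cons, List.prod_cons, mul_assoc]

theorem toP_ne {R : Type} [CommRing R] {D : Ds} (π : Pres D R) {g : List El} :
    (!g.all (isz D)) = true ↔ toP π.val g ≠ 0 := by
  rw [Bool.not_eq_true', ← Bool.not_eq_true, List.all_eq_true, not_iff_not]
  constructor
  · intro h
    refine Finset.sum_eq_zero fun i hi => ?_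
    have hi' := Finset.mem_range.1 hi
    rw [List.getD_eq_getElem _ _ hi', (π.isz_iff _).1 (h _ (List.getElem_mem hi')), C_0, zero_mul]
  · intro h a ha
    obtain ⟨i, hi, rfl⟩ := List.getElem_of_mem ha
    rw [π.isz_iff, ← List.getD_eq_getElem _ [] hi, ← coeff_toP π.hm.nil, h, coeff_zero]

theorem eng_root (hA : StmtENGA) (hB : StmtENGB) {F k : Type} [Field F] [Field k] [IsAlgClosed k]
    {D : Ds} (π : Pres D F) (ι : F →+* k) {v n : ℕ} (hn : 0 < n) (eqs : List (List El))
    (a : Fin v → k)
    (ha : Iso eqs.length (fun l => toMv (fun x => ι (π.val x)) n v (eqs.getD l [])) a)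
    (i : Fin v) : ∃ g ∈ eng D v n eqs i, ((toP π.val g).map ι).eval (a i) = 0 := by
  obtain ⟨b1, b2, b3⟩ := hB k v n eqs.length i (fun l J => ι (π.val (ent eqs l J))) hn
  obtain ⟨β, ⟨e, he⟩, hβ⟩ := hA k v eqs.length (dlt v n) _ a i _ ha b1 b3
  have hlt : ∀ j, Finsupp.cons e β j < dlE v n eqs.length := fun j =>
    ((MvPolynomial.monomial_le_degreeOf j (MvPolynomial.mem_support_iff.2 he)).trans
      (MvPolynomial.degreeOf_le_totalDegree _ j)).trans_lt b2
  obtain ⟨J, hJ, rfl⟩ := KitPt.exists_exps (m := β) fun j => by simpa using hlt j.succ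
  have key : ∀ e' < dlE v n eqs.length,
      ι (π.val (((List.range (dlE v n eqs.length)).map fun e =>
        chunk D (engD D v n eqs i) (e + dlE v n eqs.length * J)).getD e' [])) =
      (engDet v n i eqs.length fun l J => ι (π.val (ent eqs l J))).coeff
        (Finsupp.cons e' (exps (dlE v n eqs.length) (v + 1) J)) := fun e' h => by
    rw [KTow.getD_range_map h, chunk_engD π v n i i.2.le eqs (by
      rw [pow_succ' _ (v + 1)]
      calc _ < dlE v n eqs.length * (J + 1) := by rw [Nat.mul_succ]; omega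
        _ ≤ _ := Nat.mul_le_mul_left _ hJ), exps_cons h, ← engDet_map ι, MvPolynomial.coeff_map]
  refine ⟨_, List.mem_filter.2 ⟨List.mem_map.2 ⟨J, List.mem_range.2 hJ, rfl⟩,
    (toP_ne π).2 fun h => he ?_⟩, ?_⟩
  · rw [← key e (by simpa using hlt 0), ← coeff_toP π.hm.nil, h, coeff_zero, map_zero]
  · rw [toP_map, toP, eval_finsetSum, List.length_map, List.length_range, ← hβ _ b2]
    refine Finset.sum_congr rfl fun e' h => ?_
    rw [eval_mul, eval_C, eval_pow, eval_X, key e' (Finset.mem_range.1 h)]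

theorem solve_ (hA : StmtENGA) (hB : StmtENGB) (hM : StmtMON) : StmtSOLVE := by
  intro F k _ _ _ D π ι v n syss hn
  have hg : ∀ g ∈ syss.flatMap fun eqs => (List.range v).flatMap fun i => eng D v n eqs i,
      toP π.val g ≠ 0 := fun g hg => by
    obtain ⟨eqs, -, h1⟩ := List.mem_flatMap.1 hg
    obtain ⟨i, -, h2⟩ := List.mem_flatMap.1 h1
    exact (toP_ne π).1 (List.mem_filter.1 h2).2
  have hX : toP π.val [cst D 0, cst D 1] = X := by
    simp [toP_cons, toP_nil, π.hm.cst]
  have hP := fold_conv π.hm _ hg _ (hX ▸ X_ne_zero)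
  have hq : ((syss.flatMap fun eqs => (List.range v).flatMap fun i => eng D v n eqs i).map
      (toP π.val)).prod ≠ 0 := List.prod_ne_zero fun h => by
    obtain ⟨g, h1, h2⟩ := List.mem_map.1 h
    exact hg g h1 h2
  rw [hX] at hP
  obtain ⟨-, m1, -, m2⟩ := hM F D π ((syss.flatMap fun eqs => (List.range v).flatMap fun i =>
    eng D v n eqs i).foldl (conv D) [cst D 0, cst D 1])
  refine ⟨List.length_pos_iff.1 ?_, fun eqs he a ha i => ?_⟩
  · rw [solve, m1, hP, natDegree_X_mul hq]
    exact Nat.succ_pos _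
  · obtain ⟨g, h1, h2⟩ := eng_root hA hB π ι hn eqs a ha i
    obtain ⟨q, h3⟩ := List.dvd_prod (List.mem_map_of_mem (f := toP π.val)
      (List.mem_flatMap.2 ⟨eqs, he, List.mem_flatMap.2 ⟨i, List.mem_range.2 i.2, h1⟩⟩ :
        g ∈ syss.flatMap fun eqs => (List.range v).flatMap fun i => eng D v n eqs i))
    rw [← toM_map, solve, m2 (hP ▸ mul_ne_zero X_ne_zero hq), hP, h3]
    simp only [Polynomial.map_mul, eval_mul, h2, zero_mul, mul_zero]

end Pool.Agent.MP_cce4c9_lc.H84
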